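import Mathlib
import Pool.Agent.Y529.HC.Strict
import Pool.Agent.Results.MP_738f0f_lc.Equality

/-!
# The classes `B(≠*, 2^h)` and `B(∼₀)` for all computable nondecreasing `h`

For computable nondecreasing `g`, `h` one of which satisfies a doubling condition
`2 f(n) ≤ f(D n)`, the class `B(≠*, 2^h)` is contained in `B(≠*, 2^g)` if and only if
`h(n) ≤ g(C n)` for some `C` and almost all `n`. Since `B(∼₀) = B(≠*, 2^(2^n))`, this gives a complete
list of the computable nondecreasing `h` with `B(∼₀) = B(≠*, 2^h)` and with `B(∼₀) ⊊ B(≠*, 2^h)`;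
in particular it contains the answers to Q1 and Q2.
The separation is a bushy tree forcing with blocks whose lengths depend on `g` and `h`.
-/

set_option autoImplicit false

namespace Pool.Agent.Results.MP_738f0f_lc.Classification

/-! ### Definitions used in the statement -/

open Classical in
/-- The oracle `A`: its characteristic function. -/
noncomputable def orc (A : Set ℕ) : ℕ →. ℕ := fun n => Part.some (if n ∈ A then 1 else 0)

/-- The number of positions below `n` at which `S` and `Y` agree. -/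
def agree (S Y : ℕ → Bool) (n : ℕ) : ℕ := ((Finset.range n).filter fun i => S i = Y i).card

/-- The lower density of the set of the positions at which `S` and `Y` agree. -/
noncomputable def lowerDens (S Y : ℕ → Bool) : ℝ :=
  Filter.liminf (fun n : ℕ => (agree S Y n : ℝ) / n) Filter.atTop

/-- The class `B(∼_p)`: the oracles `A` which compute a set `Y` such that, for every computable
set `S`, the set of positions where `S` and `Y` agree has lower density greater than `p`. -/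
def BSim (p : ℝ) : Set (Set ℕ) :=
  {A | ∃ Y : ℕ → Bool, ComputableIn {orc A} Y ∧
    ∀ S : ℕ → Bool, Computable S → p < lowerDens S Y}

/-- The class `B(≠*, h)`: the oracles `A` which compute a function `y` with `y n < h n` for all `n`
such that, for every computable function `x`, `x n ≠ y n` for all but finitely many `n`. -/
def BNeq (h : ℕ → ℕ) : Set (Set ℕ) :=
  {A | ∃ y : ℕ → ℕ, ComputableIn {orc A} y ∧ (∀ n, y n < h n) ∧
    ∀ x : ℕ → ℕ, Computable x → ∀ᶠ n in Filter.atTop, x n ≠ y n}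

/-- the doubling condition: `2 f(n) ≤ f(D n)` for some `D` and almost all `n` -/
def Doubling (f : ℕ → ℕ) : Prop := ∃ D : ℕ, ∀ᶠ n in Filter.atTop, 2 * f n ≤ f (D * n)

open Filter
open Pool.Agent.Helper67.BN

/-! ### The separation -/

theorem esearch {α : Type} [Primcodable α] {q : α → ℕ → Bool} (hq : ComputableIn₂ ∅ q)
    (H : ∀ a, ∃ n, q a n = true) : ∃ F : α → ℕ, ComputableIn ∅ F ∧ ∀ a, q a (F a) = true := by
  classical
  have hq' : Computable₂ q := computable_of_ci hq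
  have hP : ComputablePred (fun p : α × ℕ => q p.1 p.2 = true) :=
    Computable.computablePred (by
      have : Computable fun p : α × ℕ => q p.1 p.2 := hq'
      simpa using this)
  exact ⟨_, (Computable.find (P := fun a n => q a n = true) hP H).computableIn,
    fun a => Nat.find_spec (H a)⟩

theorem cube_tail {h : ℕ → ℕ} (mh : Monotone h) {b i : ℕ} (hbi : b ≤ i)
    (hi : (i + 1) ^ 3 ≤ 2 ^ h i) : 2 ^ (h b / 3) * (i + 1) ^ 2 ≤ 2 ^ h i := by
  have h1 : (2 ^ (h b / 3)) ^ 3 ≤ 2 ^ h i := by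
    rw [← pow_mul]
    apply Nat.pow_le_pow_right (by norm_num)
    have := mh hbi
    omega
  have h2 : (2 ^ (h b / 3) * (i + 1) ^ 2) ^ 3 ≤ (2 ^ h i) ^ 3 := by
    calc (2 ^ (h b / 3) * (i + 1) ^ 2) ^ 3 = (2 ^ (h b / 3)) ^ 3 * ((i + 1) ^ 3) ^ 2 := by ring
      _ ≤ 2 ^ h i * (2 ^ h i) ^ 2 := Nat.mul_le_mul h1 (Nat.pow_le_pow_left hi 2)
      _ = (2 ^ h i) ^ 3 := by ring
  exact (Nat.pow_le_pow_iff_left (by norm_num)).1 h2

theorem sep {g h : ℕ → ℕ} (hg : Computable g) (hh : Computable h) (mg : Monotone g)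
    (mh : Monotone h) (hN : ∀ᶠ n in atTop, (n + 1) ^ 3 ≤ 2 ^ h n)
    (hsep : ∀ C : ℕ, ∃ᶠ n in atTop, C * (g (C * n) + 1) ≤ h n) :
    ∃ A, A ∈ BNeq (fun n => 2 ^ h n) ∧ A ∉ BNeq (fun n => 2 ^ g n) := by
  obtain ⟨N0, hN0⟩ := eventually_atTop.1 hN
  obtain ⟨b0, hb0, hb1⟩ := frequently_atTop.1 (hsep 9) N0
  have hq : ComputableIn₂ ∅ fun (p : ℕ × ℕ × ℕ × ℕ) (b' : ℕ) =>
      decide (p.2.1 < b') &&
        decide ((p.1 + 1) * (g (p.2.2.2 + p.2.2.1 * b') + 1) + 2 ≤ h b' / 3) := by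
    have hk : ComputableIn ∅ fun a : (ℕ × ℕ × ℕ × ℕ) × ℕ => a.1.1 := ci_comp ci_fst ci_fst
    have hB : ComputableIn ∅ fun a : (ℕ × ℕ × ℕ × ℕ) × ℕ => a.1.2.1 :=
      ci_comp ci_fst (ci_comp ci_snd ci_fst)
    have hc : ComputableIn ∅ fun a : (ℕ × ℕ × ℕ × ℕ) × ℕ => a.1.2.2.1 :=
      ci_comp ci_fst (ci_comp ci_snd (ci_comp ci_snd ci_fst))
    have hW : ComputableIn ∅ fun a : (ℕ × ℕ × ℕ × ℕ) × ℕ => a.1.2.2.2 :=
      ci_comp ci_snd (ci_comp ci_snd (ci_comp ci_snd ci_fst))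
    have hb : ComputableIn ∅ fun a : (ℕ × ℕ × ℕ × ℕ) × ℕ => a.2 := ci_snd
    have h1 : ComputableIn ∅ fun a : (ℕ × ℕ × ℕ × ℕ) × ℕ => g (a.1.2.2.2 + a.1.2.2.1 * a.2) :=
      ci_compC hg (cadd hW (cmul hc hb))
    have h2 : ComputableIn ∅ fun a : (ℕ × ℕ × ℕ × ℕ) × ℕ => h a.2 := ci_compC hh hb
    exact cand (clt hB hb) (cle (cadd (cmul (cadd hk (cconst 1)) (cadd h1 (cconst 1)))
      (cconst 2)) (cdiv h2 (cconst 3)))
  obtain ⟨F, hF, hF2⟩ := esearch hq (by
    rintro ⟨k, b, c, W⟩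
    obtain ⟨n, hn1, hn2⟩ := frequently_atTop.1 (hsep (3 * (k + 3) + (c + 1))) (b + 1 + W)
    refine ⟨n, ?_⟩
    simp only [Bool.and_eq_true, decide_eq_true_eq]
    refine ⟨by omega, ?_⟩
    rw [Nat.le_div_iff_mul_le (by norm_num)]
    have h1 : g (W + c * n) ≤ g ((3 * (k + 3) + (c + 1)) * n) := by
      apply mg
      nlinarith
    refine le_trans ?_ hn2
    have h2 : (3 * (k + 3)) * (g (W + c * n) + 1)
        ≤ (3 * (k + 3) + (c + 1)) * (g ((3 * (k + 3) + (c + 1)) * n) + 1) :=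
      Nat.mul_le_mul (by omega) (by omega)
    refine le_trans ?_ h2
    have h3 : 0 ≤ g (W + c * n) := Nat.zero_le _
    nlinarith)
  simp only [Bool.and_eq_true, decide_eq_true_eq] at hF2
  let P : Pool.Agent.Y529.HC.Par :=
    { gg := g
      hh := h
      nx := fun k b c W => F (k, b, c, W)
      b0 := b0
      cgg := hg
      chh := hh
      cnx := (computable_of_ci hF).of_eq fun p => rfl
      mg := mg
      tail := fun b i hb hi => cube_tail mh hi (hN0 i (hb0.trans (hb.trans hi)))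
      start := by
        rw [Nat.le_div_iff_mul_le (by norm_num)]
        nlinarith
      nx_lt := fun k b c W => (hF2 (k, b, c, W)).1
      nx_big := fun k b c W => (hF2 (k, b, c, W)).2 }
  exact Pool.Agent.Y529.HC.strict

/-! ### The inclusion -/

theorem incl {g h : ℕ → ℕ} (hg : Computable g) (mg : Monotone g)
    (hC : ∃ C : ℕ, ∀ᶠ n in atTop, h n ≤ g (C * n)) :
    BNeq (fun n => 2 ^ h n) ⊆ BNeq (fun n => 2 ^ g n) := by
  obtain ⟨C', hC'⟩ := hC
  obtain ⟨C, hCpos, hC⟩ : ∃ C : ℕ, 0 < C ∧ ∀ᶠ n in atTop, h n ≤ g (C * n) := by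
    refine ⟨C' + 1, Nat.succ_pos _, hC'.mono fun n hn => hn.trans (mg ?_)⟩
    nlinarith
  rintro A ⟨y, hy, hy1, hy2⟩
  have hdiv : Tendsto (fun n : ℕ => n / C) atTop atTop := Nat.tendsto_div_const_atTop hCpos.ne'
  refine ⟨fun n => y (n / C) % 2 ^ g n, ?_, fun n => Nat.mod_lt _ (by positivity), ?_⟩
  · exact cmod (ci_comp (f := y) hy (cdiv ComputableIn.id (cconst C)))
      (cpw 2 (ci_compC hg ComputableIn.id))
  · intro x hx
    have h1 : ∀ r ∈ Finset.range C, ∀ᶠ n in atTop, x (C * n + r) ≠ y n := by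
      intro r _
      refine hy2 (fun n => x (C * n + r)) ?_
      exact hx.comp (computable_of_ci (cadd (cmul (cconst C) ComputableIn.id) (cconst r)))
    have h2 : ∀ᶠ n in atTop, ∀ r ∈ Finset.range C, x (C * n + r) ≠ y n :=
      (eventually_all_finset _).2 h1
    filter_upwards [hdiv.eventually h2, hdiv.eventually hC] with n hn1 hn2
    have h3 : y (n / C) < 2 ^ g n := by
      refine (hy1 _).trans_le (Nat.pow_le_pow_right (by norm_num) (hn2.trans (mg ?_)))
      exact Nat.mul_div_le n C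
    rw [Nat.mod_eq_of_lt h3]
    have h4 := hn1 (n % C) (Finset.mem_range.2 (Nat.mod_lt _ hCpos))
    rwa [Nat.div_add_mod] at h4

/-! ### Doubling -/

theorem Doubling.pos {f : ℕ → ℕ} (mf : Monotone f) (hf : Doubling f) :
    ∃ D : ℕ, 2 ≤ D ∧ ∀ᶠ n in atTop, 2 * f n ≤ f (D * n) := by
  obtain ⟨D, hD⟩ := hf
  refine ⟨D + 2, by omega, hD.mono fun n hn => hn.trans (mf ?_)⟩
  nlinarith

theorem Doubling.iter {f : ℕ → ℕ} (mf : Monotone f) (hf : Doubling f) (s : ℕ) :
    ∃ E : ℕ, 0 < E ∧ ∀ᶠ n in atTop, 2 ^ s * f n ≤ f (E * n) := by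
  obtain ⟨D, hD1, hD⟩ := hf.pos mf
  have hmul : Tendsto (fun n : ℕ => D * n) atTop atTop :=
    tendsto_id.const_mul_atTop' (by omega)
  induction s with
  | zero => exact ⟨1, one_pos, Eventually.of_forall fun n => by simp⟩
  | succ s ih =>
    obtain ⟨E, hE1, hE⟩ := ih
    refine ⟨E * D, Nat.mul_pos hE1 (by omega), ?_⟩
    filter_upwards [hD, hmul.eventually hE] with n h1 h2
    calc 2 ^ (s + 1) * f n = 2 ^ s * (2 * f n) := by ring
      _ ≤ 2 ^ s * f (D * n) := Nat.mul_le_mul_left _ h1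
      _ ≤ f (E * (D * n)) := h2
      _ = f (E * D * n) := by rw [mul_assoc]

/-- a function which satisfies the doubling condition is eventually zero or grows like a power -/
theorem Doubling.growth {f : ℕ → ℕ} (mf : Monotone f) (hf : Doubling f) (h0 : ∃ n, 0 < f n) :
    ∀ᶠ n in atTop, (n + 1) ^ 3 ≤ 2 ^ f n := by
  obtain ⟨D, hD1, hD⟩ := hf.pos mf
  obtain ⟨N, hN⟩ := eventually_atTop.1 hD
  obtain ⟨n0, hn0⟩ := h0
  obtain ⟨M, hM⟩ : ∃ M, M = N + n0 + 1 := ⟨_, rfl⟩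
  have h1 : ∀ s, 2 ^ s ≤ f (D ^ s * M) := by
    intro s
    induction s with
    | zero =>
      have := mf (show n0 ≤ D ^ 0 * M by rw [pow_zero, one_mul]; omega)
      simp only [pow_zero]
      simp only [pow_zero] at this
      omega
    | succ s ih =>
      have h2 : M ≤ D ^ s * M := Nat.le_mul_of_pos_left _ (by positivity)
      have h3 := hN (D ^ s * M) (by omega)
      calc 2 ^ (s + 1) = 2 * 2 ^ s := by ring
        _ ≤ 2 * f (D ^ s * M) := Nat.mul_le_mul_left _ ih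
        _ ≤ f (D * (D ^ s * M)) := h3
        _ = f (D ^ (s + 1) * M) := by congr 1; ring
  -- `(D ^ (s + 1) * M) ^ 3 ≤ 2 ^ (2 ^ s)` for large `s`
  have h2 : ∀ᶠ s : ℕ in atTop, (D ^ (s + 1) * M) ^ 3 ≤ 2 ^ (2 ^ s) := by
    have h3 : ∀ s : ℕ, (D ^ (s + 1) * M) ^ 3 ≤ 2 ^ (3 * (D * (s + 1) + M)) := by
      intro s
      have h4 : D ^ (s + 1) ≤ 2 ^ (D * (s + 1)) := by
        rw [pow_mul]
        exact Nat.pow_le_pow_left Nat.lt_two_pow_self.le _
      have h5 : M ≤ 2 ^ M := Nat.lt_two_pow_self.le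
      calc (D ^ (s + 1) * M) ^ 3 ≤ (2 ^ (D * (s + 1)) * 2 ^ M) ^ 3 :=
            Nat.pow_le_pow_left (Nat.mul_le_mul h4 h5) 3
        _ = 2 ^ (3 * (D * (s + 1) + M)) := by rw [← pow_add, ← pow_mul]; ring_nf
    have h4 : ∀ᶠ s : ℕ in atTop, 3 * (D * (s + 1) + M) ≤ 2 ^ s := by
      have h5 : Tendsto (fun s : ℕ => (s : ℝ) ^ 1 / (2 : ℝ) ^ s) atTop (nhds 0) :=
        tendsto_pow_const_div_const_pow_of_one_lt 1 (by norm_num)
      have h6 : (0 : ℝ) < 1 / (3 * (2 * D + M) + 1) := by positivity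
      filter_upwards [h5.eventually (gt_mem_nhds h6), eventually_ge_atTop 1] with s hs hs1
      rw [pow_one, div_lt_div_iff₀ (by positivity) (by positivity), one_mul] at hs
      have hs' : (s : ℝ) * (3 * (2 * D + M) + 1) < ((2 ^ s : ℕ) : ℝ) := by push_cast; exact hs
      have hs2 : s * (3 * (2 * D + M) + 1) < 2 ^ s := by exact_mod_cast hs'
      have h7 : 3 * (D * (s + 1) + M) ≤ s * (3 * (2 * D + M) + 1) := by
        have h8 : D * (s + 1) ≤ D * (2 * s) := Nat.mul_le_mul_left _ (by omega)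
        have h9 : M ≤ M * s := Nat.le_mul_of_pos_right _ hs1
        nlinarith
      omega
    filter_upwards [h4] with s hs
    exact (h3 s).trans (Nat.pow_le_pow_right (by norm_num) hs)
  obtain ⟨s0, hs0⟩ := eventually_atTop.1 h2
  filter_upwards [eventually_ge_atTop (D ^ s0 * M)] with n hn
  have hMpos : 0 < M := by omega
  obtain ⟨s, hs⟩ : ∃ s, s = Nat.log D (n / M) := ⟨_, rfl⟩
  have hq : D ^ s0 ≤ n / M := (Nat.le_div_iff_mul_le hMpos).2 hn
  have hq0 : n / M ≠ 0 := by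
    have : 0 < D ^ s0 := by positivity
    omega
  have h3 : D ^ s ≤ n / M := by rw [hs]; exact Nat.pow_log_le_self D hq0
  have h4 : n / M < D ^ (s + 1) := by rw [hs]; exact Nat.lt_pow_succ_log_self (by omega) _
  have h5 : s0 ≤ s := by rw [hs]; exact Nat.le_log_of_pow_le (by omega) hq
  have h6 : D ^ s * M ≤ n := (Nat.le_div_iff_mul_le hMpos).1 h3
  have h7 : n < D ^ (s + 1) * M := (Nat.div_lt_iff_lt_mul hMpos).1 h4
  calc (n + 1) ^ 3 ≤ (D ^ (s + 1) * M) ^ 3 := Nat.pow_le_pow_left h7 3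
    _ ≤ 2 ^ (2 ^ s) := hs0 s h5
    _ ≤ 2 ^ f n := Nat.pow_le_pow_right (by norm_num) ((h1 s).trans (mf h6))

theorem growth_tendsto {h : ℕ → ℕ} (hN : ∀ᶠ n in atTop, (n + 1) ^ 3 ≤ 2 ^ h n) (K : ℕ) :
    ∀ᶠ n in atTop, K ≤ h n := by
  filter_upwards [hN, eventually_ge_atTop (2 ^ K)] with n h1 h2
  have h3 : 2 ^ K < 2 ^ h n := by
    calc 2 ^ K < n + 1 := by omega
      _ ≤ (n + 1) ^ 3 := Nat.le_self_pow (by norm_num) _
      _ ≤ 2 ^ h n := h1
  exact ((Nat.pow_lt_pow_iff_right (by norm_num)).1 h3).le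

/-! ### The comparison of two classes -/

theorem compare {g h : ℕ → ℕ} (hg : Computable g) (hh : Computable h) (mg : Monotone g)
    (mh : Monotone h)
    (hd : Doubling h ∨ (Doubling g ∧ ∀ᶠ n in atTop, (n + 1) ^ 3 ≤ 2 ^ h n)) :
    BNeq (fun n => 2 ^ h n) ⊆ BNeq (fun n => 2 ^ g n) ↔
      ∃ C : ℕ, ∀ᶠ n in atTop, h n ≤ g (C * n) := by
  refine ⟨fun hsub => ?_, incl hg mg⟩
  by_contra hcon
  push Not at hcon
  -- the growth of `h`
  have h0 : ∃ n, 0 < h n := by
    obtain ⟨n, hn⟩ := (hcon 0).exists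
    exact ⟨n, by omega⟩
  have hN : ∀ᶠ n in atTop, (n + 1) ^ 3 ≤ 2 ^ h n := by
    rcases hd with hd | hd
    · exact hd.growth mh h0
    · exact hd.2
  obtain ⟨A, hA1, hA2⟩ := sep hg hh mg mh hN (by
    intro C
    rcases hd with hd | hd
    · -- doubling for `h`
      obtain ⟨E, hE1, hE⟩ := hd.iter mh C
      have hmul : Tendsto (fun n : ℕ => E * n) atTop atTop :=
        tendsto_id.const_mul_atTop' (by omega)
      refine hmul.frequently ?_
      refine ((hcon (C * E)).and_eventually hE).mono ?_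
      rintro n ⟨h1, h2⟩
      calc C * (g (C * (E * n)) + 1) ≤ 2 ^ C * h n := by
            refine Nat.mul_le_mul Nat.lt_two_pow_self.le ?_
            rw [← mul_assoc]
            exact h1
        _ ≤ h (E * n) := h2
    · -- doubling for `g`
      rcases Nat.eq_zero_or_pos C with hC | hC
      · subst hC
        exact (Eventually.of_forall fun n => by simp).frequently
      obtain ⟨E, hE1, hE⟩ := hd.1.iter mg (2 * C)
      have hmul : Tendsto (fun n : ℕ => C * n) atTop atTop :=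
        tendsto_id.const_mul_atTop' (by omega)
      refine ((hcon (E * C)).and_eventually ((hmul.eventually hE).and
        (growth_tendsto hN C))).mono ?_
      rintro n ⟨h1, h2, h3⟩
      rcases Nat.eq_zero_or_pos (g (C * n)) with h4 | h4
      · rw [h4]
        simpa using h3
      · rw [← mul_assoc] at h2
        have h5 : C * 2 ≤ 2 ^ (2 * C) := by
          have : 2 * C < 2 ^ (2 * C) := Nat.lt_two_pow_self
          omega
        calc C * (g (C * n) + 1) ≤ C * (2 * g (C * n)) := Nat.mul_le_mul_left _ (by omega)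
          _ = C * 2 * g (C * n) := by ring
          _ ≤ 2 ^ (2 * C) * g (C * n) := Nat.mul_le_mul_right _ h5
          _ ≤ g (E * C * n) := h2
          _ ≤ h n := h1.le)
  exact hA2 (hsub hA1)

/-! ### The class `B(∼₀)` -/

theorem doubling_two_pow : Doubling (fun n => 2 ^ n) :=
  ⟨2, eventually_atTop.2 ⟨1, fun n hn => by
    calc 2 * 2 ^ n = 2 ^ (n + 1) := by ring
      _ ≤ 2 ^ (2 * n) := Nat.pow_le_pow_right (by norm_num) (by omega)⟩⟩

theorem computable_two_pow : Computable fun n : ℕ => 2 ^ n :=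
  computable_of_ci (cpw 2 ComputableIn.id)

theorem mono_two_pow : Monotone fun n : ℕ => 2 ^ n := fun _ _ h =>
  Nat.pow_le_pow_right (by norm_num) h

theorem equality : BNeq (fun n => 2 ^ (2 ^ n)) = BSim 0 :=
  Pool.Agent.Results.MP_738f0f_lc.Equality.result

/-- `B(∼₀) ⊆ B(≠*, 2^h)` iff `h` has at least exponential growth -/
theorem sub_iff {h : ℕ → ℕ} (hh : Computable h) (mh : Monotone h) :
    BSim 0 ⊆ BNeq (fun n => 2 ^ h n) ↔ ∃ C : ℕ, ∀ᶠ n in atTop, 2 ^ n ≤ h (C * n) := by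
  rw [← equality]
  exact compare (g := h) (h := fun n => 2 ^ n) hh computable_two_pow mh mono_two_pow
    (Or.inl doubling_two_pow)

/-- `B(≠*, 2^h) ⊆ B(∼₀)` iff `h` has at most exponential growth -/
theorem sup_iff {h : ℕ → ℕ} (hh : Computable h) (mh : Monotone h)
    (hN : ∀ᶠ n in atTop, (n + 1) ^ 3 ≤ 2 ^ h n) :
    BNeq (fun n => 2 ^ h n) ⊆ BSim 0 ↔ ∃ C : ℕ, ∀ᶠ n in atTop, h n ≤ 2 ^ (C * n) := by
  rw [← equality]
  exact compare (g := fun n => 2 ^ n) (h := h) computable_two_pow hh mono_two_pow mh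
    (Or.inr ⟨doubling_two_pow, hN⟩)

/-- exponential growth implies the weak growth condition -/
theorem growth_of_exp {h : ℕ → ℕ} (mh : Monotone h)
    (hC : ∃ C : ℕ, ∀ᶠ n in atTop, 2 ^ n ≤ h (C * n)) :
    ∀ᶠ n in atTop, (n + 1) ^ 3 ≤ 2 ^ h n := by
  obtain ⟨C', hC'⟩ := hC
  obtain ⟨C, hCpos, hC⟩ : ∃ C : ℕ, 0 < C ∧ ∀ᶠ n in atTop, 2 ^ n ≤ h (C * n) := by
    refine ⟨C' + 1, Nat.succ_pos _, hC'.mono fun n hn => hn.trans (mh ?_)⟩
    nlinarith
  have hdiv : Tendsto (fun n : ℕ => n / C) atTop atTop := Nat.tendsto_div_const_atTop hCpos.ne'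
  have h2 : ∀ᶠ q : ℕ in atTop, (C * (q + 1)) ^ 3 ≤ 2 ^ (2 ^ q) := by
    have h3 : ∀ᶠ q : ℕ in atTop, 3 * (C + (q + 1)) ≤ 2 ^ q := by
      filter_upwards [eventually_ge_atTop (C + 10)] with q hq
      obtain ⟨t, rfl⟩ : ∃ t, q = t + 10 := ⟨q - 10, by omega⟩
      have h5 : t < 2 ^ t := Nat.lt_two_pow_self
      have h6 : 2 ^ (t + 10) = 1024 * 2 ^ t := by rw [pow_add]; ring
      omega
    filter_upwards [h3] with q hq
    have h5 : C ≤ 2 ^ C := Nat.lt_two_pow_self.le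
    have h6 : q + 1 ≤ 2 ^ (q + 1) := Nat.lt_two_pow_self.le
    calc (C * (q + 1)) ^ 3 ≤ (2 ^ C * 2 ^ (q + 1)) ^ 3 := Nat.pow_le_pow_left (Nat.mul_le_mul h5 h6) 3
      _ = 2 ^ (3 * (C + (q + 1))) := by rw [← pow_add, ← pow_mul]; ring_nf
      _ ≤ 2 ^ (2 ^ q) := Nat.pow_le_pow_right (by norm_num) hq
  filter_upwards [hdiv.eventually hC, hdiv.eventually h2] with n h3 h4
  have h5 : n + 1 ≤ C * (n / C + 1) := by
    have := Nat.lt_mul_div_succ n hCpos
    omega
  calc (n + 1) ^ 3 ≤ (C * (n / C + 1)) ^ 3 := Nat.pow_le_pow_left h5 3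
    _ ≤ 2 ^ (2 ^ (n / C)) := h4
    _ ≤ 2 ^ h n := Nat.pow_le_pow_right (by norm_num) (h3.trans (mh (Nat.mul_div_le n C)))

/-- `B(∼₀) = B(≠*, 2^h)` iff `h` has exponential growth -/
theorem eq_iff {h : ℕ → ℕ} (hh : Computable h) (mh : Monotone h) :
    BSim 0 = BNeq (fun n => 2 ^ h n) ↔
      ∃ C : ℕ, ∀ᶠ n in atTop, 2 ^ n ≤ h (C * n) ∧ h n ≤ 2 ^ (C * n) := by
  constructor
  · intro heq
    have h1 := (sub_iff hh mh).1 heq.subset
    obtain ⟨C2, h2⟩ := (sup_iff hh mh (growth_of_exp mh h1)).1 heq.symm.subset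
    obtain ⟨C1, h1⟩ := h1
    refine ⟨C1 + C2, ?_⟩
    filter_upwards [h1, h2] with n h3 h4
    exact ⟨h3.trans (mh (by nlinarith)), h4.trans (Nat.pow_le_pow_right (by norm_num)
      (by nlinarith))⟩
  · rintro ⟨C, hC⟩
    have h1 : ∃ C : ℕ, ∀ᶠ n in atTop, 2 ^ n ≤ h (C * n) := ⟨C, hC.mono fun n hn => hn.1⟩
    refine Set.Subset.antisymm ((sub_iff hh mh).2 h1) ?_
    exact (sup_iff hh mh (growth_of_exp mh h1)).2 ⟨C, hC.mono fun n hn => hn.2⟩

/-- `B(∼₀) ⊊ B(≠*, 2^h)` iff `h` has at least exponential, but not at most exponential growth -/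
theorem ssub_iff {h : ℕ → ℕ} (hh : Computable h) (mh : Monotone h) :
    BSim 0 ⊂ BNeq (fun n => 2 ^ h n) ↔
      (∃ C : ℕ, ∀ᶠ n in atTop, 2 ^ n ≤ h (C * n)) ∧
        ∀ C : ℕ, ∃ᶠ n in atTop, 2 ^ (C * n) < h n := by
  rw [ssubset_iff_subset_not_subset, sub_iff hh mh]
  refine and_congr_right fun h1 => ?_
  rw [sup_iff hh mh (growth_of_exp mh h1)]
  push Not
  exact Iff.rfl

theorem monotone_factorial : Monotone Nat.factorial := fun _ _ h => Nat.factorial_le h

theorem two_pow_le_factorial : ∀ᶠ n in atTop, 2 ^ n ≤ Nat.factorial (1 * n) := by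
  filter_upwards [eventually_ge_atTop 4] with n hn
  rw [one_mul]
  induction n, hn using Nat.le_induction with
  | base => decide
  | succ n hn ih =>
    rw [pow_succ, Nat.factorial_succ]
    nlinarith

theorem pow_lt_factorial (C : ℕ) : ∀ᶠ n in atTop, 2 ^ (C * n) < Nat.factorial n := by
  have h1 := FloorSemiring.tendsto_pow_div_factorial_atTop ((2 : ℝ) ^ C)
  filter_upwards [h1.eventually (gt_mem_nhds one_pos)] with n hn
  rw [div_lt_one (by positivity), ← pow_mul] at hn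
  exact_mod_cast hn

/-- **Classification of the classes `B(≠*, 2^h)`, with the answers to Q1 and Q2.** -/
theorem result :
    -- the inclusions between the classes `B(≠*, 2^h)`, `B(≠*, 2^g)`
    (∀ g h : ℕ → ℕ, Computable g → Computable h → Monotone g → Monotone h →
      (Doubling h ∨ (Doubling g ∧ ∀ᶠ n in atTop, (n + 1) ^ 3 ≤ 2 ^ h n)) →
      (BNeq (fun n => 2 ^ h n) ⊆ BNeq (fun n => 2 ^ g n) ↔
        ∃ C : ℕ, ∀ᶠ n in atTop, h n ≤ g (C * n))) ∧
    -- all computable nondecreasing bounds compared with `B(∼₀)`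
    (∀ h : ℕ → ℕ, Computable h → Monotone h →
      (BSim 0 ⊆ BNeq (fun n => 2 ^ h n) ↔ ∃ C : ℕ, ∀ᶠ n in atTop, 2 ^ n ≤ h (C * n)) ∧
      (BSim 0 = BNeq (fun n => 2 ^ h n) ↔
        ∃ C : ℕ, ∀ᶠ n in atTop, 2 ^ n ≤ h (C * n) ∧ h n ≤ 2 ^ (C * n))) ∧
    -- the answer to Q1 (negative) and to Q2 (positive)
    BNeq (fun n => 2 ^ (2 ^ n)) = BSim 0 ∧
    BNeq (fun n => 2 ^ (2 ^ n)) ⊂ BNeq (fun n => 2 ^ n.factorial) := by
  refine ⟨fun g h hg hh mg mh hd => compare hg hh mg mh hd,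
    fun h hh mh => ⟨sub_iff hh mh, eq_iff hh mh⟩, equality, ?_⟩
  have hf : Computable Nat.factorial := computable_of_ci (cfct ComputableIn.id)
  rw [equality]
  refine (ssub_iff (h := Nat.factorial) hf monotone_factorial).2 ?_
  exact ⟨⟨1, two_pow_le_factorial⟩, fun C => (pow_lt_factorial C).frequently⟩

end Pool.Agent.Results.MP_738f0f_lc.Classification
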